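import Pool.Agent.Helper48.CR.Goals

/-!
# MP_69be96_nt, packet SEC (Chebyshev)
-/

set_option autoImplicit false

open Finset Filter Topology MeasureTheory ProbabilityTheory
open Pool.Agent.Helper60.BFT
open Pool.Agent.Helper48.CR

namespace Pool.Agent.Helper6.CR

/-- SEC -/
theorem sec : SECG := by
  classical
  intro S hS G e a ρ hρ he hpair E hE hEle
  have hpos : ∀ q ∈ S.toList, 0 < q := fun q hq => (hS q (Finset.mem_toList.1 hq)).pos
  set m : ℕ → ℝ := fun n => AvS S (e n) a with hm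
  set E' : ℝ := ∑ n ∈ G, m n with hE'
  have hE'le : E ≤ E' := hEle
  have hE'pos : 0 < E' := lt_of_lt_of_le hE hE'le
  have hnn : ∀ n ∈ G, 0 ≤ m n := by
    intro n hn
    apply Av_nonneg
    intro b
    rcases he n hn b with h | h <;> rw [h] <;> norm_num
  have hterm : ∀ n ∈ G, ∀ n' ∈ G, AvS S (fun b => e n b * e n' b) a ≤
      (if n = n' then m n else 0) + (1 + ρ) * (m n * m n') := by
    intro n hn n' hn'
    by_cases h : n = n'
    · subst h
      rw [if_pos rfl]
      have h1 : AvS S (fun b => e n b * e n b) a = m n := by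
        apply Av_ext
        intro b
        rcases he n hn b with h | h <;> rw [h] <;> norm_num
      rw [h1]
      have h2 := hnn n hn
      have h3 : 0 ≤ (1 + ρ) * (m n * m n) := by positivity
      linarith
    · rw [if_neg h, zero_add]
      exact hpair n hn n' hn' h
  have hdouble : ∑ n ∈ G, ∑ n' ∈ G, AvS S (fun b => e n b * e n' b) a ≤ E' + (1 + ρ) * E' ^ 2 := by
    calc ∑ n ∈ G, ∑ n' ∈ G, AvS S (fun b => e n b * e n' b) a
        ≤ ∑ n ∈ G, ∑ n' ∈ G, ((if n = n' then m n else 0) + (1 + ρ) * (m n * m n')) :=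
          Finset.sum_le_sum fun n hn => Finset.sum_le_sum fun n' hn' => hterm n hn n' hn'
      _ = E' + (1 + ρ) * E' ^ 2 := by
          simp only [Finset.sum_add_distrib, Finset.sum_ite_eq, ← Finset.mul_sum]
          rw [← Finset.sum_mul]
          have h1 : ∑ n ∈ G, (if n ∈ G then m n else 0) = E' :=
            Finset.sum_congr rfl fun n hn => by rw [if_pos hn]
          rw [h1]
          ring
  have hvar : AvS S (fun b => (∑ n ∈ G, e n b - E') ^ 2) a ≤ E' + ρ * E' ^ 2 := by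
    have h1 : AvS S (fun b => (∑ n ∈ G, e n b - E') ^ 2) a =
        AvS S (fun b => (∑ n ∈ G, ∑ n' ∈ G, e n b * e n' b) +
          ((-2 * E') * (∑ n ∈ G, e n b) + E' ^ 2)) a := by
      apply Av_ext
      intro b
      have h2 : ∑ n ∈ G, ∑ n' ∈ G, e n b * e n' b = (∑ n ∈ G, e n b) * (∑ n ∈ G, e n b) := by
        rw [Finset.sum_mul_sum]
      rw [h2]
      ring
    rw [h1]
    unfold AvS
    rw [Av_add, Av_add, Av_mul_left, Av_const _ hpos, Av_sum, Av_sum]
    have h3 : ∑ n ∈ G, Av S.toList (fun b => ∑ n' ∈ G, e n b * e n' b) a =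
        ∑ n ∈ G, ∑ n' ∈ G, AvS S (fun b => e n b * e n' b) a :=
      Finset.sum_congr rfl fun n _ => by rw [Av_sum]; rfl
    rw [h3]
    have h4 : ∑ n ∈ G, Av S.toList (e n) a = E' := rfl
    rw [h4]
    nlinarith [hdouble]
  have hpt : AvS S (fun b => if ∑ n ∈ G, e n b < E / 2 then (1 : ℝ) else 0) a ≤
      AvS S (fun b => (4 / E' ^ 2) * (∑ n ∈ G, e n b - E') ^ 2) a := by
    apply Av_mono
    intro b
    by_cases h : ∑ n ∈ G, e n b < E / 2
    · rw [if_pos h]
      have h1 : E' / 2 < E' - ∑ n ∈ G, e n b := by linarith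
      have h2 : (E' / 2) ^ 2 ≤ (∑ n ∈ G, e n b - E') ^ 2 := by nlinarith
      rw [div_mul_eq_mul_div, le_div_iff₀ (by positivity)]
      nlinarith
    · rw [if_neg h]
      positivity
  have hmul : AvS S (fun b => (4 / E' ^ 2) * (∑ n ∈ G, e n b - E') ^ 2) a =
      (4 / E' ^ 2) * AvS S (fun b => (∑ n ∈ G, e n b - E') ^ 2) a := by
    unfold AvS
    rw [Av_mul_left]
  have hfin : (4 / E' ^ 2) * AvS S (fun b => (∑ n ∈ G, e n b - E') ^ 2) a ≤ 4 / E' + 4 * ρ := by
    calc (4 / E' ^ 2) * AvS S (fun b => (∑ n ∈ G, e n b - E') ^ 2) a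
        ≤ (4 / E' ^ 2) * (E' + ρ * E' ^ 2) := by
          apply mul_le_mul_of_nonneg_left hvar
          positivity
      _ = 4 / E' + 4 * ρ := by field_simp
  have hlast : 4 / E' ≤ 4 / E := by
    apply div_le_div_of_nonneg_left (by norm_num) hE hE'le
  calc AvS S (fun b => if ∑ n ∈ G, e n b < E / 2 then (1 : ℝ) else 0) a
      ≤ _ := hpt
    _ = _ := hmul
    _ ≤ 4 / E' + 4 * ρ := hfin
    _ ≤ 4 / E + 4 * ρ := by linarith

end Pool.Agent.Helper6.CR
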